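import Pool.Agent.H365.DL.Fin
import Pool.Agent.H365.Bridge

/-!
# Project DL: the theorem in the vocabulary of the problem file
-/

set_option autoImplicit false

namespace Pool.Agent.H365.DL

theorem central_of_card_two {P : Type} [Group P] (Z : Subgroup P) [hZ : Z.Normal]
    (h : Nat.card Z = 2) : Z ≤ Subgroup.center P := by
  obtain ⟨x, y, hxy, huniv⟩ := Nat.card_eq_two_iff.1 h
  intro z hz
  rw [Subgroup.mem_center_iff]
  intro g
  by_cases hz1 : z = 1
  · rw [hz1, mul_one, one_mul]
  · have hc : g * z * g⁻¹ ∈ Z := hZ.conj_mem z hz g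
    have hc1 : g * z * g⁻¹ ≠ 1 := by
      intro h1
      exact hz1 (conj_eq_one_iff.1 h1)
    have h3 : ∀ a b : Z, a ≠ 1 → b ≠ 1 → a = b := by
      intro a b ha hb
      have m : ∀ w : Z, w = x ∨ w = y := by
        intro w
        have : w ∈ ({x, y} : Set Z) := by rw [huniv]; trivial
        simpa using this
      rcases m a with rfl | rfl <;> rcases m b with rfl | rfl <;> rcases m 1 with h1 | h1 <;>
        first
        | rfl
        | exact absurd h1.symm ha
        | exact absurd h1.symm hb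
    have h4 := h3 ⟨g * z * g⁻¹, hc⟩ ⟨z, hz⟩ (fun h => hc1 (congrArg Subtype.val h))
      (fun h => hz1 (congrArg Subtype.val h))
    have h5 : g * z * g⁻¹ = z := congrArg Subtype.val h4
    exact mul_inv_eq_iff_eq_mul.1 h5

/-- the whole statement -/
theorem full :
    ∃ (P : Type) (_ : Group P) (Z : Subgroup P) (_ : Z.Normal),
      Nat.card Z = 2 ∧ Z ≤ Subgroup.center P ∧ Group.FG P ∧ PropertyT P ∧
      ResiduallyFinite (P ⧸ Z) ∧
      (∀ H : Subgroup P, H.FiniteIndex → Z ≤ H) ∧ ¬ Hyperlinear P := by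
  obtain ⟨P, i1, Z, i2, h1, h2, h3, h4⟩ := main
  have hrf : Pool.Agent.H365.IsRF (P ⧸ Z) := rf_of_hom h3
  refine ⟨P, i1, Z, i2, h1, central_of_card_two Z h1, fg_of_hasT h2, propertyT_iff.2 h2, hrf, ?_,
    h4⟩
  intro H hH
  by_contra hZH
  apply h4
  refine IsRF.hyperlinear fun g hg => ?_
  -- the normal core of `H` meets `Z` trivially
  by_cases hgZ : g ∈ Z
  · refine ⟨H.normalCore, inferInstance, inferInstance, fun hgH => hZH ?_⟩
    have hgH' : g ∈ H := H.normalCore_le hgH
    intro z hz
    by_cases hz1 : z = 1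
    · rw [hz1]; exact H.one_mem
    · obtain ⟨x, y, hxy, huniv⟩ := Nat.card_eq_two_iff.1 h1
      have m : ∀ w : Z, w = x ∨ w = y := by
        intro w
        have : w ∈ ({x, y} : Set Z) := by rw [huniv]; trivial
        simpa using this
      have h5 : (⟨z, hz⟩ : Z) = ⟨g, hgZ⟩ := by
        have a1 : (⟨z, hz⟩ : Z) ≠ 1 := fun h => hz1 (congrArg Subtype.val h)
        have a2 : (⟨g, hgZ⟩ : Z) ≠ 1 := fun h => hg (congrArg Subtype.val h)
        rcases m ⟨z, hz⟩ with e1 | e1 <;> rcases m ⟨g, hgZ⟩ with e2 | e2 <;>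
          rcases m 1 with e3 | e3
        · rw [e1, e2]
        · rw [e1, e2]
        · exact absurd (e1.trans e3.symm) a1
        · exact absurd (e2.trans e3.symm) a2
        · exact absurd (e2.trans e3.symm) a2
        · exact absurd (e1.trans e3.symm) a1
        · rw [e1, e2]
        · rw [e1, e2]
      have h6 : z = g := congrArg Subtype.val h5
      rw [h6]
      exact hgH'
  · obtain ⟨N, n1, n2, n3⟩ := hrf (QuotientGroup.mk g) (fun h => hgZ ((QuotientGroup.eq_one_iff g).1 h))
    refine ⟨N.comap (QuotientGroup.mk' Z), inferInstance, ?_, n3⟩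
    exact ⟨by
      rw [Subgroup.index_comap_of_surjective _ (QuotientGroup.mk'_surjective Z)]
      exact n2.index_ne_zero⟩

end Pool.Agent.H365.DL
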